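import Mathlib
import Pool.Agent.X7.KneserTools

/-!
# The signed `[0,s]`-critical number of abelian groups of odd order divisible by three

For every finite abelian group `G` of odd order divisible by `3` and every `s ≥ 3`,
`χ_±(G, [0,s]) = |G|/3 + 1`.
-/

set_option autoImplicit false

open Finset
open scoped Pointwise

namespace Pool.Agent.Results.MP_33eb55_co.OddThree

open Pool.Agent.Helper591.Kneser Pool.Agent.X7.KneserTools

/-- The `h`-fold signed sumset `h_± A`: all sums `∑ λ_a a` with integers `λ_a` (`a ∈ A`) such that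
`∑ |λ_a| = h`. -/
def signedSum {G : Type} [AddCommGroup G] (h : ℕ) (A : Finset G) : Set G :=
  {g | ∃ c : G → ℤ, ∑ a ∈ A, |c a| = (h : ℤ) ∧ ∑ a ∈ A, c a • a = g}

/-- `[0,s]_± A`: the union of the signed sumsets `h_± A` with `0 ≤ h ≤ s`. -/
def signedUpTo {G : Type} [AddCommGroup G] (s : ℕ) (A : Finset G) : Set G :=
  {g | ∃ h : ℕ, h ≤ s ∧ g ∈ signedSum h A}

/-- `χ_±(G, [0,s])`: the least `m` such that `[0,s]_± A = G` for all `m`-subsets `A` of `G`. -/
noncomputable def chi (G : Type) [AddCommGroup G] (s : ℕ) : ℕ :=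
  sInf {m | ∀ A : Finset G, A.card = m → signedUpTo s A = Set.univ}

/-- `v_±(n,h) = max {(2⌊(d-2)/(2h)⌋ + 1) · n/d : d ∣ n}` (an integer, with integer floors). -/
noncomputable def v (n h : ℕ) : ℤ :=
  sSup {x : ℤ | ∃ d : ℕ, d ∣ n ∧ x = (2 * (((d : ℤ) - 2) / (2 * (h : ℤ))) + 1) * ((n / d : ℕ) : ℤ)}

theorem exists_hom {G : Type} [AddCommGroup G] [Fintype G] (h3 : 3 ∣ Fintype.card G) :
    ∃ f : G →+ ZMod 3, f ≠ 0 := by
  classical
  have : Fact (Nat.Prime 3) := ⟨Nat.prime_three⟩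
  set m : G →+ G := 3 • AddMonoidHom.id G with hm
  have hm' : ∀ x, m x = 3 • x := fun x => rfl
  obtain ⟨x, hx⟩ := exists_prime_addOrderOf_dvd_card 3 h3
  have hninj : ¬ Function.Injective m := by
    intro hinj
    have h1 : m x = m 0 := by
      rw [hm', map_zero, ← hx, addOrderOf_nsmul_eq_zero]
    have h2 : x = 0 := hinj h1
    rw [h2, addOrderOf_zero] at hx
    omega
  have hnsurj : ¬ Function.Surjective m := fun h => hninj (Finite.injective_iff_surjective.2 h)
  have hrange : m.range ≠ ⊤ := fun h => hnsurj (AddMonoidHom.range_eq_top.1 h)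
  obtain ⟨g, hg⟩ : ∃ g : G, g ∉ m.range := by
    by_contra hcon
    push Not at hcon
    exact hrange ((AddSubgroup.eq_top_iff' _).2 hcon)
  have hexp : ∀ q : G ⧸ m.range, 3 • q = 0 := by
    intro q
    obtain ⟨y, rfl⟩ := QuotientAddGroup.mk_surjective q
    rw [← QuotientAddGroup.mk_nsmul, QuotientAddGroup.eq_zero_iff]
    exact ⟨y, hm' y⟩
  let _ : Module (ZMod 3) (G ⧸ m.range) := AddCommGroup.zmodModule hexp
  have hne : (QuotientAddGroup.mk g : G ⧸ m.range) ≠ 0 := by
    intro h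
    exact hg ((QuotientAddGroup.eq_zero_iff g).1 h)
  obtain ⟨φ, hφ⟩ := Module.Projective.exists_dual_ne_zero (ZMod 3) hne
  refine ⟨φ.toAddMonoidHom.comp (QuotientAddGroup.mk' m.range), ?_⟩
  intro h
  apply hφ
  have := DFunLike.congr_fun h g
  exact this

theorem upper {G : Type} [AddCommGroup G] [Fintype G] (hodd : Odd (Fintype.card G)) (s : ℕ)
    (hs : 3 ≤ s) (A : Finset G) (hA : signedUpTo s A ≠ Set.univ) :
    3 * A.card ≤ Fintype.card G := by
  classical
  obtain ⟨g, hg⟩ := (Set.ne_univ_iff_exists_notMem _).1 hA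
  have hne : sm s (insert 0 (A ∪ -A)) ≠ univ := by
    intro h
    have hgs : g ∈ sm s (insert 0 (A ∪ -A)) := by rw [h]; exact mem_univ g
    obtain ⟨c, hc1, hc2⟩ := exists_coeff A s g hgs
    apply hg
    have hnn : 0 ≤ ∑ a ∈ A, |c a| := sum_nonneg (fun a _ => abs_nonneg _)
    refine ⟨(∑ a ∈ A, |c a|).toNat, by omega, c, ?_, hc2⟩
    omega
  have hsym : ∀ x ∈ insert 0 (A ∪ -A), -x ∈ insert 0 (A ∪ -A) := by
    intro x hx
    rw [mem_insert, mem_union, mem_neg] at hx ⊢
    rcases hx with rfl | hx | ⟨y, hy, rfl⟩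
    · left; exact neg_zero
    · right; right; exact ⟨x, hx, rfl⟩
    · right; left; rwa [neg_neg]
  obtain ⟨d, e, t, hde, hd2, hcard, ht⟩ :=
    symm_bound hodd (mem_insert_self 0 _) hsym s (by omega) hne
  have hcardA : A.card ≤ (2 * t + 1) * e := by
    refine le_trans (card_le_card ?_) hcard
    intro x hx
    exact mem_insert_of_mem (mem_union_left _ hx)
  have hdodd : Odd d := (Nat.odd_mul.1 (hde ▸ hodd)).1
  have h6 : 6 * t + 2 ≤ d := by
    refine le_trans ?_ ht
    have : 3 * t ≤ s * t := Nat.mul_le_mul_right t hs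
    have e1 : 2 * s * t = 2 * (s * t) := by ring
    omega
  have h63 : 3 * (2 * t + 1) ≤ d := by
    obtain ⟨l, hl⟩ := hdodd
    omega
  calc 3 * A.card ≤ 3 * ((2 * t + 1) * e) := Nat.mul_le_mul_left 3 hcardA
    _ = 3 * (2 * t + 1) * e := by ring
    _ ≤ d * e := Nat.mul_le_mul_right e h63
    _ = Fintype.card G := hde

theorem lower {G : Type} [AddCommGroup G] [Fintype G] (h3 : 3 ∣ Fintype.card G) (s : ℕ) :
    ∃ A : Finset G, 3 * A.card = Fintype.card G ∧ signedUpTo s A ≠ Set.univ := by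
  classical
  obtain ⟨f, hf⟩ := exists_hom h3
  have : Fact (Nat.Prime 3) := ⟨Nat.prime_three⟩
  have hker : f.ker ≠ ⊤ := by
    intro h
    apply hf
    ext x
    have : x ∈ f.ker := by rw [h]; exact AddSubgroup.mem_top x
    exact this
  have hindex : f.ker.index = 3 := by
    rw [AddSubgroup.index_ker]
    have h1 : Nat.card f.range ∣ 3 := by
      have := AddSubgroup.card_addSubgroup_dvd_card f.range
      rwa [Nat.card_zmod] at this
    rcases (Nat.dvd_prime Nat.prime_three).1 h1 with h | h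
    · exfalso
      apply hf
      rw [AddSubgroup.card_eq_one, AddMonoidHom.range_eq_bot_iff] at h
      exact h
    · exact h
  have hels : (els f.ker).card = Nat.card f.ker := by
    unfold els
    rw [Nat.card_eq_fintype_card, Fintype.card_subtype]
    congr
  refine ⟨els f.ker, ?_, ?_⟩
  · have h1 := AddSubgroup.card_mul_index f.ker
    rw [hindex, Nat.card_eq_fintype_card (α := G)] at h1
    rw [hels, mul_comm]
    exact h1
  · intro huniv
    apply hker
    rw [AddSubgroup.eq_top_iff']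
    intro x
    have hx : x ∈ signedUpTo s (els f.ker) := by rw [huniv]; exact Set.mem_univ x
    obtain ⟨h, _, c, _, hc⟩ := hx
    rw [← hc]
    exact AddSubgroup.sum_mem _ (fun a ha => AddSubgroup.zsmul_mem _ (mem_els.1 ha) _)

theorem chi_eq {G : Type} [AddCommGroup G] [Fintype G] (hodd : Odd (Fintype.card G))
    (h3 : 3 ∣ Fintype.card G) (s : ℕ) (hs : 3 ≤ s) : chi G s = Fintype.card G / 3 + 1 := by
  have hmem : Fintype.card G / 3 + 1 ∈
      {m | ∀ A : Finset G, A.card = m → signedUpTo s A = Set.univ} := by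
    intro A hA
    by_contra hne
    have := upper hodd s hs A hne
    omega
  refine le_antisymm (Nat.sInf_le hmem) ?_
  by_contra hcon
  push Not at hcon
  have hin := Nat.sInf_mem (⟨_, hmem⟩ :
    {m | ∀ A : Finset G, A.card = m → signedUpTo s A = Set.univ}.Nonempty)
  obtain ⟨A, hA1, hA2⟩ := lower h3 s
  have hle : chi G s ≤ A.card := by omega
  obtain ⟨B, hBA, hB⟩ := exists_subset_card_eq hle
  have hBu := hin B hB
  apply hA2
  rw [Set.eq_univ_iff_forall]
  intro g
  have hg : g ∈ signedUpTo s B := by rw [hBu]; exact Set.mem_univ g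
  classical
  obtain ⟨h, hh, c, hc1, hc2⟩ := hg
  refine ⟨h, hh, fun a => if a ∈ B then c a else 0, ?_, ?_⟩
  · rw [← hc1]
    symm
    apply sum_subset_zero_on_sdiff hBA
    · intro x hx
      show |(if x ∈ B then c x else 0)| = 0
      rw [if_neg (mem_sdiff.1 hx).2, abs_zero]
    · intro x hx
      show |c x| = |(if x ∈ B then c x else 0)|
      rw [if_pos hx]
  · rw [← hc2]
    symm
    apply sum_subset_zero_on_sdiff hBA
    · intro x hx
      show (if x ∈ B then c x else 0) • x = 0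
      rw [if_neg (mem_sdiff.1 hx).2, zero_zsmul]
    · intro x hx
      show c x • x = (if x ∈ B then c x else 0) • x
      rw [if_pos hx]

theorem v_eq (n s : ℕ) (hodd : Odd n) (h3 : 3 ∣ n) (hs : 3 ≤ s) : v n s = ((n / 3 : ℕ) : ℤ) := by
  have hn : 0 < n := hodd.pos
  have hub : ∀ x ∈ {x : ℤ | ∃ d : ℕ, d ∣ n ∧
      x = (2 * (((d : ℤ) - 2) / (2 * (s : ℤ))) + 1) * ((n / d : ℕ) : ℤ)}, x ≤ ((n / 3 : ℕ) : ℤ) := by
    rintro x ⟨d, ⟨e, rfl⟩, rfl⟩
    have hd : 0 < d := Nat.pos_of_mul_pos_right hn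
    have he : 0 < e := Nat.pos_of_mul_pos_left hn
    rw [Nat.mul_div_cancel_left e hd]
    set t := ((d : ℤ) - 2) / (2 * (s : ℤ)) with ht
    have hdodd : Odd d := (Nat.odd_mul.1 hodd).1
    have hs' : (3 : ℤ) ≤ s := by exact_mod_cast hs
    have h1 : t * (2 * (s : ℤ)) ≤ (d : ℤ) - 2 := Int.ediv_mul_le _ (by positivity)
    have h2 : 3 * (2 * t + 1) ≤ (d : ℤ) := by
      rcases lt_or_ge t 0 with hneg | hnn
      · have : (0 : ℤ) < d := by exact_mod_cast hd
        linarith
      · have h3 : 6 * t ≤ t * (2 * (s : ℤ)) := by nlinarith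
        obtain ⟨l, hl⟩ := hdodd
        have hl' : (d : ℤ) = 2 * l + 1 := by exact_mod_cast hl
        omega
    have h4 : 3 * ((2 * t + 1) * (e : ℤ)) ≤ d * e := by
      have := mul_le_mul_of_nonneg_right h2 (Int.natCast_nonneg e)
      linarith
    obtain ⟨k, hk⟩ := h3
    have h5 : d * e / 3 = k := by rw [hk]; exact Nat.mul_div_cancel_left k (by norm_num)
    have h6 : ((d * e : ℕ) : ℤ) = 3 * k := by exact_mod_cast hk
    rw [h5]
    push_cast at h6
    linarith
  have hbdd : BddAbove {x : ℤ | ∃ d : ℕ, d ∣ n ∧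
      x = (2 * (((d : ℤ) - 2) / (2 * (s : ℤ))) + 1) * ((n / d : ℕ) : ℤ)} := ⟨_, hub⟩
  have hmem : ((n / 3 : ℕ) : ℤ) ∈ {x : ℤ | ∃ d : ℕ, d ∣ n ∧
      x = (2 * (((d : ℤ) - 2) / (2 * (s : ℤ))) + 1) * ((n / d : ℕ) : ℤ)} := by
    refine ⟨3, h3, ?_⟩
    have hs' : (3 : ℤ) ≤ s := by exact_mod_cast hs
    have : (((3 : ℕ) : ℤ) - 2) / (2 * (s : ℤ)) = 0 := by
      apply Int.ediv_eq_zero_of_lt
      · norm_num
      · push_cast; linarith
    rw [this]
    ring
  apply le_antisymm
  · exact csSup_le ⟨_, hmem⟩ hub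
  · exact le_csSup hbdd hmem

/-- For every finite abelian group `G` of odd order divisible by `3` and every `s ≥ 3` we have
`χ_±(G, [0,s]) = |G|/3 + 1`; in particular, for every odd `n` divisible by `3` and every `s ≥ 3`,
`χ_±(ℤ_n, [0,s]) = v_±(n,s) + 1 = n/3 + 1`. -/
theorem result :
    (∀ (G : Type) [AddCommGroup G] [Fintype G], Odd (Fintype.card G) → 3 ∣ Fintype.card G →
      ∀ s : ℕ, 3 ≤ s → chi G s = Fintype.card G / 3 + 1) ∧
    (∀ n s : ℕ, Odd n → 3 ∣ n → 3 ≤ s →
      (chi (ZMod n) s : ℤ) = v n s + 1 ∧ chi (ZMod n) s = n / 3 + 1) := by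
  refine ⟨fun G _ _ hodd h3 s hs => chi_eq hodd h3 s hs, ?_⟩
  intro n s hodd h3 hs
  have : NeZero n := ⟨hodd.pos.ne'⟩
  have h1 : chi (ZMod n) s = n / 3 + 1 := by
    have := chi_eq (G := ZMod n) (by rwa [ZMod.card]) (by rwa [ZMod.card]) s hs
    rwa [ZMod.card] at this
  refine ⟨?_, h1⟩
  rw [h1, v_eq n s hodd h3 hs]
  push_cast
  rfl

end Pool.Agent.Results.MP_33eb55_co.OddThree
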